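import Mathlib
import Pool.Agent.Helper21.BP.Model
import Pool.Agent.Helper21.BP.Conv

/-!
# Exact Triangle: branching programs with space `n ^ o(1)` need time `n ^ (3 - o(1))`

The model (file `Pool/Agent/Helper21/BP/Model.lean`). A branching program with `C` states makes `D`
steps. In every step its state determines a question about the weights, and the answer determines
the next state; both depend in an arbitrary way on the time. The questions are the sign of a real
polynomial in the weights, and whether such a polynomial vanishes. The program is drawn at random
and depends in an arbitrary way on the flags, which are known for free. Its space is `log C`.

The restriction (`Allowed s B x K`): for fixed flags and random bits, the polynomials asked for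
their signs are integer affine forms in at most `s` weights with coefficients at most `x` and
constant term at most `B` in absolute value, any number of them, or they are among `K` real affine
forms in all the weights; the zero tests are about polynomials of degree at most `x`, any number of
them.

Theorem. The program has to decide Exact Triangle with probability `2/3` on all valid instances.

1. For every `ε > 0` there is `δ > 0` such that for large `n`: in space `n ^ δ`, with sparse
   comparisons of at most `40` weights (coefficients at most `n ^ δ`, constants at most `n ^ 20`),
   up to `n ^ δ` dense affine ones, and zero tests of degree at most `n ^ δ`, at least
   `n ^ (3 - ε)` steps are needed.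
2. In space `n ^ (1/2)`, with sparse comparisons of at most six weights (this contains all
   3-linear, 4-linear and 6-linear comparisons) and up to `n ^ 4` dense affine ones, time times
   space is at least `n ^ 2.96`.

A real register machine with arithmetic is such a program: its states are the pairs of the contents
of the memory and of the polynomials in the weights held by the registers. Without the restriction
of the space `n ^ (2 + o(1))` comparisons of six weights suffice (Kane, Lovett, Moran).

Idea of the proof. The instance contains `n / 3` hidden instances of element distinctness. Half of
the elements are deleted, that is, their weights get huge independent values. The weight of any
other element is a sum of widely separated parts, one for each level: the part of level `i` is a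
random mask of a random hash value of the first `i + 1` digits of the element; and there is random
noise on the lowest scale. For all sparse forms simultaneously the masks of a level have no short
relation: so the value of a sparse form on the first level where some hash class has nonzero
coefficient sum is nonzero and decides the sign, and up to this level every element of the form has
a mate with the same hash value. For a dense form a variable is pivotal if it is not deleted
and the largest magnitude of a monomial increases when it is deleted; with high probability there
are few pivotal variables (encoding argument), and the sign does not change if all variables
outside the deleted and pivotal ones are replaced by zero (anticoncentration). If a pivotal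
variable has no mate on level `i` among the pivotal variables still present on this level, then its
lower parts do not matter: treating the variables in the order in which they are lost, the mask of
its hash value occurs nowhere else. So every sign query looks at few elements, which depend only on
the set of deleted elements, and reveals an element on a level only if it has a mate there. The
number of elements revealed in a window of the computation is bounded by an exponential
supermartingale, for all starting states simultaneously, and recursively over longer and longer
windows. Zero tests give no information because of the noise: on a line parallel to an axis all sign
queries together have few different answer vectors. At the end, a change that turns the instance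
into a yes-instance is noticed only if an element is revealed on all levels.
-/

set_option autoImplicit false

namespace Pool.Agent.Results.MP_62fbe0_lc.BranchingPrograms

open Pool.Agent.Helper21.BP

/-- Branching programs for Exact Triangle: time `n ^ (3 - o(1))` in space `n ^ o(1)`, and time times
space at least `n ^ 2.96` in space at most `n ^ (1/2)`. -/
theorem result :
    -- comparisons of at most `40` weights and `n ^ δ` dense ones, space `n ^ δ`
    (∀ ε : ℝ, 0 < ε → ∃ δ : ℝ, 0 < δ ∧ ∃ n₀ : ℕ, ∀ n : ℕ, n₀ ≤ n →
      ∀ (D C R : ℕ) (A : RandProg n D C R), Real.logb 2 C ≤ (n : ℝ) ^ δ →
        (∀ fl ρ, (A fl ρ).Allowed 40 ((n : ℤ) ^ 20) ((n : ℝ) ^ δ) ((n : ℝ) ^ δ)) → Decides A →
          (n : ℝ) ^ (3 - ε) ≤ D) ∧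
    -- comparisons of at most `6` weights and `n ^ 4` dense ones, space `n ^ (1/2)`
    (∃ δ : ℝ, 0 < δ ∧ ∃ n₀ : ℕ, ∀ n : ℕ, n₀ ≤ n →
      ∀ (D C R : ℕ) (A : RandProg n D C R), Real.logb 2 C ≤ (n : ℝ) ^ (1 / 2 : ℝ) →
        (∀ fl ρ, (A fl ρ).Allowed 6 ((n : ℤ) ^ 20) ((n : ℝ) ^ δ) ((n : ℝ) ^ 4)) → Decides A →
          (n : ℝ) ^ (2.96 : ℝ) ≤ D * (1 + Real.logb 2 C)) :=
  ⟨small_space, root_space⟩

end Pool.Agent.Results.MP_62fbe0_lc.BranchingPrograms
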