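import Mathlib
import Pool.Agent.Helper36.PSW.Defs
import Pool.Agent.Helper36.PSW.Conv

/-!
# Exact Triangle with partly seen weights

The model (`Pool/Agent/Helper36/PSW/Defs.lean`): a randomized adaptive algorithm of unlimited
computing power that knows all edge flags. At every step it either inspects one bit of one weight,
i.e. it learns the value of an arbitrary `{0,1}`-valued function at this weight, or asks a query:

* value queries: compute an arbitrary real polynomial in all the weights as an opaque handle; all
  equalities among the values computed so far are known;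
* sign queries: the sign of an integer affine form in at most 20 weights with coefficients at most
  `n ^ 8` which is not determined by the triangle sums.

The algorithm has to be right with probability at least `2/3` on every valid instance.

(1) If the polynomials have degree `n ^ o(1)`, at least `n ^ (3 - o(1))` queries are needed as long as
only `o(n ^ 2 log n)` bits of the weights are inspected in total, adaptively, any number of any
weight.

(2) If at most `β log n` bits are inspected of each weight, where `0 ≤ β < 1` is fixed, then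
`n ^ (3 - β ± o(1))` queries are necessary and sufficient (linear value queries suffice).
-/

set_option autoImplicit false

namespace Pool.Agent.Results.MP_62fbe0_lc.PartlySeenWeights

open Pool.Agent.Helper36.PSW

theorem result :
    -- few inspected bits in total: the exponent is 3
    (∀ ε : ℝ, 0 < ε → ∃ δ : ℝ, 0 < δ ∧ ∃ n₀ : ℕ, ∀ n ≥ n₀, ∀ (D B L R : ℕ) (A : Alg n L R),
      A.LowDegree ((n : ℝ) ^ δ) → A.Decides → A.Queries D → A.TotalBits B →
        (B : ℝ) ≤ δ * (n : ℝ) ^ 2 * Real.logb 2 n → (n : ℝ) ^ (3 - ε) ≤ D) ∧
    -- `β log n` bits of each weight: the exponent is `3 - β`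
    ∀ β : ℝ, 0 ≤ β → β < 1 → ∀ ε : ℝ, 0 < ε →
      (∃ δ : ℝ, 0 < δ ∧ ∃ n₀ : ℕ, ∀ n ≥ n₀, ∀ (D b L R : ℕ) (A : Alg n L R),
        A.LowDegree ((n : ℝ) ^ δ) → A.Decides → A.Queries D → A.EachBits b →
          (b : ℝ) ≤ β * Real.logb 2 n → (n : ℝ) ^ (3 - β - ε) ≤ D) ∧
      ∃ n₀ : ℕ, ∀ n ≥ n₀, ∃ (D b L R : ℕ) (A : Alg n L R),
        A.LowDegree 1 ∧ A.Decides ∧ A.Queries D ∧ A.EachBits b ∧
          (b : ℝ) ≤ β * Real.logb 2 n ∧ (D : ℝ) ≤ (n : ℝ) ^ (3 - β + ε) :=
  ⟨fun _ hε => total hε, fun _ h0 h1 _ hε => ⟨lower h1 hε, upper h0 h1.le hε⟩⟩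

end Pool.Agent.Results.MP_62fbe0_lc.PartlySeenWeights
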