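import Mathlib
import Pool.Agent.Helper21.TG.Conv

/-!
# Exact Triangle by threshold circuits: `n ^ 3` gates are necessary and sufficient

The instances are complete tripartite graphs on `n` vertices (the classes are the residues modulo 3)
with integer weights of absolute value at most `n ^ 300`. A random circuit is a weighted vote: the
votes are arbitrary real numbers, it accepts if their sum is positive, and it has to be right with
probability at least `19/20` on every instance. There is any number of free voters: arbitrary
functions of two of the three weight matrices (for example everything that can be computed with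
their products). Each of the `N` other voters is an arbitrary real function of `m` threshold gates
`0 ≤ p (w)`, where `p` is a real polynomial of degree at most `d` in all the weights.

Theorem. If `4 ≤ n`, `1 ≤ d ≤ 5` and `1 ≤ m`, then `N * m ^ (3/2) ≥ n ^ 3 / (2 ^ 32 * 100 ^ d)`. In
particular, depth-two threshold circuits, with unbounded weights and unbounded fan-in, need
`n ^ 3 / 2 ^ 39` gates; and `2 * n ^ 3` of them are enough. (For `n = 3` there is only one triangle,
and `1/2 - (x + y + w) ^ 2` is a sum of functions of two weights; so `n ≥ 4` is needed.)

Idea of the proof: two triangles with one common edge are planted in a random instance; each of the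
five weights has two possible values, so that there are sixteen instances; in eight of them exactly
one of the two triangles has the sum zero and in the other eight none. If all mixed third
differences of the sum of the votes along the two triangles vanish, then this sum satisfies a linear
relation between the sixteen instances which contradicts the signs. So some voter has a non-zero
mixed third difference; a free voter has none. Every weight that does not belong to the planted
triangles is big with probability `1/10`, with a huge random value: for each gate the variables of
the dominating monomial of the polynomial are read, again and again, until all the variables of the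
dominating monomial are big; then, by an inequality of Remez for polynomials of small degree, the
answer does not depend on the small parts of the weights that have not been read, except with a tiny
probability. The number of triangles among the weights that have been read is bounded by the
inequality of Loomis and Whitney.
-/

set_option autoImplicit false

namespace Pool.Agent.Results.MP_62fbe0_lc.ThresholdGates

/-- The instances: integer weights of the pairs of vertices `0, …, n - 1`, of absolute value at most
`n ^ 300`. The three classes are the residues modulo 3, and the edges are the pairs of vertices from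
different classes (the weights of the pairs inside the classes do not matter). -/
abbrev Inst (n : ℕ) : Type := {w : Sym2 (Fin n) → ℤ // ∀ e, |w e| ≤ (n : ℤ) ^ 300}

/-- Some triangle (with one vertex in every class) has weight zero. -/
def Yes {n : ℕ} (w : Inst n) : Prop :=
  ∃ a b c : Fin n, (a : ℕ) % 3 ≠ (b : ℕ) % 3 ∧ (b : ℕ) % 3 ≠ (c : ℕ) % 3 ∧
    (a : ℕ) % 3 ≠ (c : ℕ) % 3 ∧ w.1 s(a, b) + w.1 s(b, c) + w.1 s(a, c) = 0

/-- The vote `H` is an arbitrary real function of the outputs of `m` threshold gates
`0 ≤ p (w)`, where the `p` are real polynomials of degree at most `d` in all the weights. -/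
def Gates {n : ℕ} (d m : ℕ) (H : Inst n → ℝ) : Prop :=
  ∃ (p : Fin m → MvPolynomial (Sym2 (Fin n)) ℝ) (F : (Fin m → Prop) → ℝ),
    (∀ i, (p i).totalDegree ≤ d) ∧
      ∀ w, H w = F fun i => 0 ≤ MvPolynomial.eval (fun e => (w.1 e : ℝ)) (p i)

/-- The vote `H` is an arbitrary real function of two of the three weight matrices: of the weights
of all the pairs with a vertex in the class `p`. -/
def Free {n : ℕ} (H : Inst n → ℝ) : Prop :=
  ∃ p : ℕ, ∀ w w' : Inst n,
    (∀ e : Sym2 (Fin n), (∃ u ∈ e, (u : ℕ) % 3 = p) → w.1 e = w'.1 e) → H w = H w'

open Classical in
/-- The random circuit with the votes `H` (over the finite probability space `Ω`, with the uniform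
law) solves Exact Triangle: on every instance it is right with probability at least `19/20`. It
accepts if the sum of the votes is positive. -/
def Solves {n : ℕ} {Ω ι : Type} [Fintype Ω] [Fintype ι] (H : Ω → ι → Inst n → ℝ) : Prop :=
  ∀ w : Inst n,
    19 * Fintype.card Ω ≤ 20 * (Finset.univ.filter fun ω : Ω => (0 < ∑ i, H ω i w ↔ Yes w)).card

/-- Random weighted votes of functions of `m` polynomial threshold gates: the lower bound, and the
upper bound for `m = 1` and linear gates. -/
theorem result :
    (∀ (n d m N : ℕ), 4 ≤ n → 1 ≤ d → d ≤ 5 → 1 ≤ m →
      ∀ (Ω ι : Type) [Fintype Ω] [Nonempty Ω] [Fintype ι] (H : Ω → ι ⊕ Fin N → Inst n → ℝ),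
      (∀ ω i, Free (H ω (.inl i))) → (∀ ω i, Gates d m (H ω (.inr i))) → Solves H →
        (n : ℝ) ^ 3 ≤ 2 ^ 32 * 100 ^ d * (N * (m : ℝ) ^ (3 / 2 : ℝ))) ∧
    (∀ n : ℕ, ∃ H : Fin (2 * n ^ 3) → Inst n → ℝ,
      (∀ i, Gates 1 1 (H i)) ∧ ∀ w, (0 < ∑ i, H i w ↔ Yes w)) :=
  ⟨fun n d m N hn hd hd5 hm Ω ι _ _ _ H hF hG hS =>
    Pool.Agent.Helper21.TG.lower n d m N hn hd hd5 hm Ω ι H hF hG hS, Pool.Agent.Helper21.TG.upper⟩

end Pool.Agent.Results.MP_62fbe0_lc.ThresholdGates
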